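import Pool.Agent.Helper94.KC.GoalsC

/-!
Project KC (Kempe classes), packet CY: an even set of edges contains a cycle.
-/

set_option autoImplicit false

namespace Pool.Agent.Helper59.KC

open Pool.Agent.Helper94.KC
open scoped Classical
open Finset

theorem gr_le {V : Type} [Fintype V] {T z : Finset (Finset V)} (hz : z ⊆ ed T) : gr z ≤ sk T := by
  intro u v h
  obtain ⟨h1, h2⟩ := h
  refine ⟨h1, ?_⟩
  have h3 := hz h2
  simp only [ed, mem_filter, mem_univ, true_and] at h3
  obtain ⟨-, t, ht, hs⟩ := h3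
  exact ⟨t, ht, hs (by simp), hs (by simp)⟩

/-- in an even set of edges every edge end is the end of another edge -/
theorem other {V : Type} [Fintype V] {T z : Finset (Finset V)} (hz : z ⊆ ed T) (he : Even2 z)
    {u s : V} (h : (gr z).Adj u s) : ∃ w, (gr z).Adj u w ∧ w ≠ s := by
  obtain ⟨h1, h2⟩ := h
  have h3 : ({u, s} : Finset V) ∈ z.filter (fun e => u ∈ e) := by
    rw [mem_filter]; exact ⟨h2, by simp⟩
  have h4 : 1 < (z.filter (fun e => u ∈ e)).card := by
    have h5 := he u
    have h6 : 0 < (z.filter (fun e => u ∈ e)).card := card_pos.mpr ⟨_, h3⟩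
    obtain ⟨k, hk⟩ := h5
    omega
  obtain ⟨e, he1, he2⟩ := exists_mem_ne h4 ({u, s} : Finset V)
  rw [mem_filter] at he1
  obtain ⟨he3, he4⟩ := he1
  have h7 := hz he3
  simp only [ed, mem_filter, mem_univ, true_and] at h7
  obtain ⟨w, hw1, hw2⟩ := exists_mem_ne (by rw [h7.1]; norm_num : 1 < e.card) u
  have h8 : e = {u, w} := by
    symm
    apply eq_of_subset_of_card_le
    · intro x hx
      rw [mem_insert, mem_singleton] at hx
      rcases hx with rfl | rfl
      · exact he4
      · exact hw1
    · rw [h7.1, card_pair hw2.symm]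
  refine ⟨w, ⟨hw2.symm, ?_⟩, ?_⟩
  · rw [← h8]; exact he3
  · rintro rfl
    exact he2 h8

theorem cy : StmtCY := by
  intro V _ T _ z hz he hne
  have hA : ¬ (gr z).IsAcyclic := by
    intro hac
    have key : ∀ n : ℕ, ∃ (u v : V) (p : (gr z).Walk u v), p.IsPath ∧ p.length = n + 1 := by
      intro n
      induction n with
      | zero =>
        obtain ⟨e, hez⟩ := hne
        have h7 := hz hez
        simp only [ed, mem_filter, mem_univ, true_and] at h7
        obtain ⟨a, b, hab, rfl⟩ := card_eq_two.mp h7.1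
        have hadj : (gr z).Adj a b := ⟨hab, hez⟩
        refine ⟨a, b, SimpleGraph.Walk.cons hadj SimpleGraph.Walk.nil, ?_, rfl⟩
        rw [SimpleGraph.Walk.cons_isPath_iff]
        exact ⟨SimpleGraph.Walk.IsPath.nil, by simpa using hab⟩
      | succ n ih =>
        obtain ⟨u, v, p, hp, hl⟩ := ih
        have hnil : ¬ p.Nil := by
          intro h
          rw [SimpleGraph.Walk.nil_iff_length_eq] at h
          omega
        obtain ⟨w, hw1, hw2⟩ := other hz he (p.adj_snd hnil)
        have hw3 : w ∉ p.support := fun h => hw2 (hac.eq_snd_of_adj_start hp hw1 h)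
        refine ⟨w, v, SimpleGraph.Walk.cons hw1.symm p, ?_, ?_⟩
        · rw [SimpleGraph.Walk.cons_isPath_iff]
          exact ⟨hp, hw3⟩
        · rw [SimpleGraph.Walk.length_cons, hl]
    obtain ⟨u, v, p, hp, hl⟩ := key (Fintype.card V)
    have := hp.length_lt
    omega
  unfold SimpleGraph.IsAcyclic at hA
  push Not at hA
  obtain ⟨x, c, hc⟩ := hA
  refine ⟨x, c.mapLe (gr_le hz), hc.mapLe _, ?_⟩
  intro e he'
  unfold wed at he'
  rw [List.mem_toFinset, List.mem_map] at he'
  obtain ⟨s, hs, rfl⟩ := he'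
  have hs2 : s ∈ c.edges := by
    have h9 : (c.mapLe (gr_le hz)).edges = c.edges := by
      rw [SimpleGraph.Walk.edges_mapLe_eq_edges]
    rwa [h9] at hs
  have hs3 := SimpleGraph.Walk.edges_subset_edgeSet c hs2
  induction s using Sym2.ind with
  | _ a b =>
    rw [SimpleGraph.mem_edgeSet] at hs3
    rw [Sym2.toFinset_mk_eq]
    exact hs3.2

end Pool.Agent.Helper59.KC
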