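import Pool.Agent.Helper53.KC.Goals

/-!
# KC, packet KINV
-/

namespace Pool.Agent.Helper59.KC

open Pool.Agent.Helper53.KC

theorem kconn_map {n : ℕ} (k : ℕ) (M : Matroid (Fin n)) (σ : Equiv.Perm (Fin n))
    (h : KConn k (M.mapEquiv σ)) : KConn k M := by
  intro j hj X Y hXY hdis hX hY
  have hXE : X ⊆ M.E := by rw [← hXY]; exact Set.subset_union_left
  have hYE : Y ⊆ M.E := by rw [← hXY]; exact Set.subset_union_right
  have h1 := h j hj (σ '' X) (σ '' Y)
    (by rw [← Set.image_union, hXY, Matroid.mapEquiv_ground_eq])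
    ((Set.disjoint_image_iff σ.injective).2 hdis)
    (by rw [σ.injective.encard_image]; exact hX)
    (by rw [σ.injective.encard_image]; exact hY)
  rw [Matroid.mapEquiv_eq_map, Matroid.eRank_map, Matroid.eRk_map _ _ hXE,
    Matroid.eRk_map _ _ hYE] at h1
  exact h1

theorem kinv : KinvStmt := by
  intro n k M σ
  refine ⟨fun h => ?_, kconn_map k M σ⟩
  refine kconn_map k (M.mapEquiv σ) σ.symm ?_
  have e : (M.mapEquiv σ).mapEquiv σ.symm = M := by
    refine Matroid.ext_indep ?_ ?_
    · rw [Matroid.mapEquiv_ground_eq, Matroid.mapEquiv_ground_eq, ← Set.image_comp]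
      simp
    · intro I _
      rw [Matroid.mapEquiv_indep_iff, Matroid.mapEquiv_indep_iff, ← Set.image_comp]
      simp
  rw [e]
  exact h

end Pool.Agent.Helper59.KC
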